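import Mathlib

/-!
The dual irregularity strength of a finite projective plane of order q is at least
about q^(3/2)/sqrt 3, hence it is not O(q).
-/

open Finset Configuration

namespace Pool.Agent.Results.MP_aa9284_co.NotLinear

open Classical in
/-- The sum of the labels of the points of the line `l`. -/
noncomputable def lineSum {P L : Type*} [Fintype P] [Membership P L] (w : P → ℕ) (l : L) : ℕ :=
  ∑ x ∈ univ.filter (fun x : P => x ∈ l), w x

/-- The dual irregularity strength: the least `s` for which there is a labelling of the points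
by positive integers at most `s` such that distinct lines have distinct sums. -/
noncomputable def dualStrength (P L : Type*) [Fintype P] [Membership P L] : ℕ :=
  sInf {s : ℕ | ∃ w : P → ℕ, (∀ x, 1 ≤ w x ∧ w x ≤ s) ∧
    Function.Injective (fun l : L => lineSum w l)}

/-! ### Distinct integers are spread out -/

lemma sum_sq_pos (A : Finset ℤ) : (∀ a ∈ A, 0 < a) →
    (#A : ℤ) ≤ 0 ∨ ((#A : ℤ) * ((#A : ℤ) + 1) * (2 * (#A : ℤ) + 1) ≤ 6 * ∑ a ∈ A, a ^ 2 ∧
      ∃ a ∈ A, (#A : ℤ) ≤ a) := by
  induction A using Finset.induction_on_max with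
  | empty => intro _; left; simp
  | insert a s hs ih =>
    intro hpos
    right
    have ha : a ∉ s := fun h => lt_irrefl _ (hs a h)
    have hapos : 0 < a := hpos a (mem_insert_self _ _)
    rw [card_insert_of_notMem ha, sum_insert ha]
    push_cast
    rcases ih (fun b hb => hpos b (mem_insert_of_mem hb)) with h | ⟨h1, b, hb, hb'⟩
    · have h0 : #s = 0 := by
        have : (#s : ℤ) ≤ 0 := h
        omega
      have hs0 : s = ∅ := card_eq_zero.mp h0
      subst hs0
      simp only [card_empty, Nat.cast_zero, sum_empty]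
      refine ⟨by nlinarith, a, mem_insert_self _ _, by linarith⟩
    · have hab : (#s : ℤ) + 1 ≤ a := by
        have := hs b hb
        linarith [Int.add_one_le_iff.mpr this]
      refine ⟨?_, a, mem_insert_self _ _, hab⟩
      have h0 : (0 : ℤ) ≤ #s := by positivity
      have h2 : ((#s : ℤ) + 1) ^ 2 ≤ a ^ 2 := by
        apply pow_le_pow_left₀ (by linarith) hab
      nlinarith

lemma sum_sq_pos' (A : Finset ℤ) (h : ∀ a ∈ A, 0 < a) :
    (#A : ℤ) * ((#A : ℤ) + 1) * (2 * (#A : ℤ) + 1) ≤ 6 * ∑ a ∈ A, a ^ 2 := by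
  rcases sum_sq_pos A h with h0 | h0
  · have h1 : (#A : ℤ) = 0 := le_antisymm h0 (by positivity)
    rw [h1]
    have : (0 : ℤ) ≤ ∑ a ∈ A, a ^ 2 := sum_nonneg (fun a _ => sq_nonneg a)
    linarith
  · exact h0.1

lemma spread (A : Finset ℤ) :
    (#A : ℤ) ^ 2 * ((#A : ℤ) ^ 2 - 1) ≤ 6 * ∑ a ∈ A, ∑ b ∈ A, (a - b) ^ 2 := by
  induction A using Finset.induction_on_max with
  | empty => simp
  | insert m s hs ih =>
    have hm : m ∉ s := fun h => lt_irrefl _ (hs m h)
    have e1 : ∑ a ∈ insert m s, ∑ b ∈ insert m s, (a - b) ^ 2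
        = ∑ a ∈ s, ∑ b ∈ s, (a - b) ^ 2 + 2 * ∑ b ∈ s, (m - b) ^ 2 := by
      rw [sum_insert hm, sum_insert hm]
      have : ∀ a ∈ s, ∑ b ∈ insert m s, (a - b) ^ 2 = (m - a) ^ 2 + ∑ b ∈ s, (a - b) ^ 2 := by
        intro a _
        rw [sum_insert hm]
        ring
      rw [sum_congr rfl this, sum_add_distrib]
      ring
    have e2 : ∑ b ∈ s, (m - b) ^ 2 = ∑ c ∈ s.image (fun b => m - b), c ^ 2 := by
      rw [sum_image]
      intro x _ y _ hxy
      simpa using hxy
    have e3 : #(s.image (fun b => m - b)) = #s := by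
      apply card_image_of_injective
      intro x y hxy
      simpa using hxy
    have e4 := sum_sq_pos' (s.image (fun b => m - b)) (by
      intro a ha
      obtain ⟨b, hb, rfl⟩ := mem_image.mp ha
      have := hs b hb
      linarith)
    rw [e3, ← e2] at e4
    rw [e1, card_insert_of_notMem hm]
    push_cast
    nlinarith

lemma spread_fun {ι : Type*} [Fintype ι] (f : ι → ℤ) (hf : Function.Injective f) :
    (Fintype.card ι : ℤ) ^ 2 * ((Fintype.card ι : ℤ) ^ 2 - 1) ≤
      6 * ∑ i, ∑ j, (f i - f j) ^ 2 := by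
  classical
  have h := spread (univ.image f)
  rw [card_image_of_injective _ hf, card_univ, sum_image (fun x _ y _ h => hf h)] at h
  refine h.trans (le_of_eq ?_)
  congr 1
  refine sum_congr rfl (fun i _ => ?_)
  rw [sum_image (fun x _ y _ h => hf h)]

lemma pair_sq {ι : Type*} [Fintype ι] (f : ι → ℤ) : ∑ i, ∑ j, (f i - f j) ^ 2 =
    2 * (Fintype.card ι : ℤ) * ∑ i, f i ^ 2 - 2 * (∑ i, f i) ^ 2 := by
  have : ∀ i j, (f i - f j) ^ 2 = f i ^ 2 + f j ^ 2 - 2 * (f i * f j) := by
    intro i j; ring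
  simp_rw [this, sum_sub_distrib, sum_add_distrib, ← mul_sum, ← sum_mul]
  simp only [sum_const, card_univ, nsmul_eq_mul]
  rw [← mul_sum]
  ring

/-- Popoviciu's inequality. -/
lemma popoviciu {ι : Type*} [Fintype ι] (f : ι → ℤ) (s : ℤ) (h1 : ∀ i, 1 ≤ f i)
    (h2 : ∀ i, f i ≤ s) :
    2 * ∑ i, ∑ j, (f i - f j) ^ 2 ≤ (Fintype.card ι : ℤ) ^ 2 * (s - 1) ^ 2 := by
  have key := pair_sq (fun i => 2 * f i - (s + 1))
  have key' : ∑ i, ∑ j, ((2 * f i - (s + 1)) - (2 * f j - (s + 1))) ^ 2 =
      4 * ∑ i, ∑ j, (f i - f j) ^ 2 := by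
    rw [mul_sum]
    refine sum_congr rfl (fun i _ => ?_)
    rw [mul_sum]
    refine sum_congr rfl (fun j _ => ?_)
    ring
  rw [key'] at key
  have h3 : ∑ i, (2 * f i - (s + 1)) ^ 2 ≤ ∑ _i : ι, (s - 1) ^ 2 := by
    refine sum_le_sum (fun i _ => ?_)
    have := h1 i
    have := h2 i
    nlinarith
  rw [sum_const, card_univ, nsmul_eq_mul] at h3
  have h5 : (0 : ℤ) ≤ Fintype.card ι := by positivity
  nlinarith [sq_nonneg (∑ i, (2 * f i - (s + 1))), mul_le_mul_of_nonneg_left h3 h5]

/-! ### Second moment identity -/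

section plane

variable {P L : Type*} [Fintype P] [Fintype L] [Membership P L] [ProjectivePlane P L]

open Classical in
lemma card_through (x y : P) :
    (#(univ.filter (fun l : L => x ∈ l ∧ y ∈ l)) : ℤ) =
      1 + (if x = y then (ProjectivePlane.order P L : ℤ) else 0) := by
  by_cases h : x = y
  · subst h
    simp only [and_self, if_true]
    have h1 := ProjectivePlane.lineCount_eq L x
    rw [lineCount, Nat.card_eq_fintype_card, Fintype.card_subtype] at h1
    rw [h1]
    push_cast
    ring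
  · rw [if_neg h]
    obtain ⟨l, hl, hu⟩ := HasLines.existsUnique_line P L x y h
    have : univ.filter (fun l : L => x ∈ l ∧ y ∈ l) = {l} := by
      ext m
      simp only [mem_filter, mem_univ, true_and, mem_singleton]
      exact ⟨fun hm => hu m hm, fun hm => hm ▸ hl⟩
    rw [this]
    simp

omit [Fintype L] [ProjectivePlane P L] in
open Classical in
lemma lineSum_cast (w : P → ℕ) (l : L) :
    (lineSum w l : ℤ) = ∑ x, (if x ∈ l then (1 : ℤ) else 0) * (w x : ℤ) := by
  rw [lineSum]
  push_cast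
  rw [sum_filter]
  refine sum_congr rfl (fun x _ => ?_)
  split_ifs <;> simp

open Classical in
lemma sum_lineSum (w : P → ℕ) :
    ∑ l : L, (lineSum w l : ℤ) = (ProjectivePlane.order P L + 1) * ∑ x, (w x : ℤ) := by
  simp_rw [lineSum_cast]
  rw [sum_comm, mul_sum]
  refine sum_congr rfl (fun x _ => ?_)
  rw [← sum_mul]
  congr 1
  have := card_through (L := L) x x
  simp only [and_self, if_true] at this
  rw [sum_boole, this]
  ring

open Classical in
lemma sum_lineSum_sq (w : P → ℕ) :
    ∑ l : L, (lineSum w l : ℤ) ^ 2 =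
      (∑ x, (w x : ℤ)) ^ 2 + ProjectivePlane.order P L * ∑ x, (w x : ℤ) ^ 2 := by
  have h1 : ∀ l : L, (lineSum w l : ℤ) ^ 2 =
      ∑ x, ∑ y, (if x ∈ l ∧ y ∈ l then (1 : ℤ) else 0) * ((w x : ℤ) * (w y : ℤ)) := by
    intro l
    rw [lineSum_cast, sq, sum_mul_sum]
    refine sum_congr rfl (fun x _ => sum_congr rfl (fun y _ => ?_))
    by_cases hx : x ∈ l <;> by_cases hy : y ∈ l <;> simp [hx, hy]
  simp_rw [h1]
  rw [sum_comm]
  have h2 : ∀ x : P, ∑ l : L, ∑ y : P, (if x ∈ l ∧ y ∈ l then (1 : ℤ) else 0) *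
      ((w x : ℤ) * (w y : ℤ)) = (w x : ℤ) * ∑ y, (w y : ℤ) +
        ProjectivePlane.order P L * (w x : ℤ) ^ 2 := by
    intro x
    rw [sum_comm]
    have h3 : ∀ y : P, ∑ l : L, (if x ∈ l ∧ y ∈ l then (1 : ℤ) else 0) *
        ((w x : ℤ) * (w y : ℤ)) = (w x : ℤ) * (w y : ℤ) +
          (if x = y then (ProjectivePlane.order P L : ℤ) * ((w x : ℤ) * (w y : ℤ)) else 0) := by
      intro y
      rw [← sum_mul, sum_boole, card_through]
      split_ifs <;> ring
    simp_rw [h3]
    rw [sum_add_distrib, mul_sum]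
    simp only [sum_ite_eq, mem_univ, if_true]
    ring
  simp_rw [h2]
  rw [sum_add_distrib, ← sum_mul, ← mul_sum]
  ring

lemma moment (w : P → ℕ) :
    ∑ l : L, ∑ m : L, ((lineSum w l : ℤ) - lineSum w m) ^ 2 =
      ProjectivePlane.order P L * ∑ x, ∑ y, ((w x : ℤ) - w y) ^ 2 := by
  rw [pair_sq (fun l : L => (lineSum w l : ℤ)), pair_sq (fun x : P => (w x : ℤ)), sum_lineSum,
    sum_lineSum_sq, ProjectivePlane.card_lines P L, ProjectivePlane.card_points P L]
  push_cast
  ring

lemma main_bound (w : P → ℕ) (s : ℕ) (h : ∀ x, 1 ≤ w x ∧ w x ≤ s)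
    (hi : Function.Injective (fun l : L => lineSum w l)) :
    (ProjectivePlane.order P L + 1) * (ProjectivePlane.order P L ^ 2 +
      ProjectivePlane.order P L + 2) ≤ 3 * (s - 1) ^ 2 := by
  have h1 := spread_fun (fun l : L => (lineSum w l : ℤ)) (by
    intro a b hab
    exact hi (by simpa using hab))
  have h2 := popoviciu (fun x : P => (w x : ℤ)) (s : ℤ) (fun i => by exact_mod_cast (h i).1)
    (fun i => by exact_mod_cast (h i).2)
  rw [moment] at h1
  rw [ProjectivePlane.card_lines P L] at h1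
  rw [ProjectivePlane.card_points P L] at h2
  have hq : 1 < ProjectivePlane.order P L := ProjectivePlane.one_lt_order P L
  obtain ⟨p, -⟩ := @ProjectivePlane.exists_config P L _ _
  have hs : 1 ≤ s := (h p).1.trans (h p).2
  generalize ProjectivePlane.order P L = q at *
  generalize ∑ x, ∑ y, ((w x : ℤ) - w y) ^ 2 = T at *
  have hs' : ((s - 1 : ℕ) : ℤ) = (s : ℤ) - 1 := by push_cast [Nat.cast_sub hs]; ring
  have goal : (((q + 1) * (q ^ 2 + q + 2) : ℕ) : ℤ) ≤ ((3 * (s - 1) ^ 2 : ℕ) : ℤ) := by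
    push_cast
    rw [hs']
    have hq' : (0 : ℤ) < q := by exact_mod_cast (by omega : 0 < q)
    set n : ℤ := (q : ℤ) ^ 2 + q + 1 with hn
    have hn0 : 0 < n := by positivity
    push_cast at h1 h2
    rw [← hn] at h1 h2
    have h3 : n ^ 2 * (n ^ 2 - 1) ≤ 3 * (q * (n ^ 2 * ((s : ℤ) - 1) ^ 2)) := by
      have := mul_le_mul_of_nonneg_left h2 hq'.le
      nlinarith
    have h4 : (n ^ 2 * q) * (((q : ℤ) + 1) * ((q : ℤ) ^ 2 + q + 2)) ≤
        (n ^ 2 * q) * (3 * ((s : ℤ) - 1) ^ 2) := by
      have e : (n ^ 2 * q) * (((q : ℤ) + 1) * ((q : ℤ) ^ 2 + q + 2)) = n ^ 2 * (n ^ 2 - 1) := by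
        rw [hn]; ring
      rw [e]
      refine h3.trans (le_of_eq ?_)
      ring
    exact le_of_mul_le_mul_left h4 (by positivity)
  exact_mod_cast goal

/-- A line-irregular labelling exists. -/
lemma exists_labelling : {s : ℕ | ∃ w : P → ℕ, (∀ x, 1 ≤ w x ∧ w x ≤ s) ∧
    Function.Injective (fun l : L => lineSum w l)}.Nonempty := by
  classical
  let e := Fintype.equivFin P
  refine ⟨2 ^ Fintype.card P, fun x => 2 ^ (e x : ℕ), fun x => ⟨Nat.one_le_two_pow,
    Nat.pow_le_pow_right (by norm_num) (e x).2.le⟩, ?_⟩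
  intro l m hlm
  have h1 : ∀ l : L, lineSum (fun x : P => 2 ^ (e x : ℕ)) l =
      ∑ i ∈ (univ.filter (fun x : P => x ∈ l)).image (fun x => (e x : ℕ)), 2 ^ i := by
    intro l
    rw [sum_image]
    · rfl
    · intro x _ y _ hxy
      exact e.injective (Fin.ext hxy)
  simp only [h1] at hlm
  have h2 := Finset.geomSum_injective (n := 2) le_rfl hlm
  have hinj : Function.Injective (fun x => (e x : ℕ)) := fun x y hxy => e.injective (Fin.ext hxy)
  have h3 := Finset.image_injective hinj h2
  have h4 := ProjectivePlane.two_lt_pointCount P l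
  rw [pointCount, Nat.card_eq_fintype_card, Fintype.card_subtype] at h4
  obtain ⟨x, hx, y, hy, hxy⟩ := Finset.one_lt_card.mp (by omega : 1 < #(univ.filter
    (fun x : P => x ∈ l)))
  have hx' := hx
  have hy' := hy
  rw [h3] at hx' hy'
  simp only [mem_filter, mem_univ, true_and] at hx hy hx' hy'
  exact (Nondegenerate.eq_or_eq hx hy hx' hy').resolve_left hxy

end plane

/-- **Lower bound of order `q ^ (3/2)` for the dual irregularity strength.**
For every finite projective plane of order `q` one has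
`(q + 1) (q ^ 2 + q + 2) ≤ 3 (s* - 1) ^ 2`; in particular no absolute constant `c` satisfies
`s* ≤ c q` for all finite projective planes. -/
theorem result :
    (∀ (P L : Type) [Fintype P] [Fintype L] [Membership P L] [ProjectivePlane P L],
      (ProjectivePlane.order P L + 1) *
        (ProjectivePlane.order P L ^ 2 + ProjectivePlane.order P L + 2) ≤
          3 * (dualStrength P L - 1) ^ 2) ∧
    (∀ c : ℝ, ∃ (P L : Type) (_ : Fintype P) (_ : Fintype L) (_ : Membership P L)
      (_ : ProjectivePlane P L),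
        c * (ProjectivePlane.order P L : ℝ) < (dualStrength P L : ℝ)) := by
  have part1 : ∀ (P L : Type) [Fintype P] [Fintype L] [Membership P L] [ProjectivePlane P L],
      (ProjectivePlane.order P L + 1) *
        (ProjectivePlane.order P L ^ 2 + ProjectivePlane.order P L + 2) ≤
          3 * (dualStrength P L - 1) ^ 2 := by
    intro P L _ _ _ _
    obtain ⟨w, hw, hi⟩ := Nat.sInf_mem (exists_labelling (P := P) (L := L))
    exact main_bound w _ hw hi
  refine ⟨part1, ?_⟩
  intro c
  obtain ⟨N, hN⟩ := exists_nat_ge (3 * c ^ 2)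
  obtain ⟨p, hp1, hp2⟩ := Nat.exists_infinite_primes (N ^ 2 + N + 2)
  have hfp : Fact p.Prime := ⟨hp2⟩
  have hfin : Finite (Projectivization (ZMod p) (Fin 3 → ZMod p)) := inferInstance
  let F : Fintype (Projectivization (ZMod p) (Fin 3 → ZMod p)) := Fintype.ofFinite _
  refine ⟨Projectivization (ZMod p) (Fin 3 → ZMod p), Projectivization (ZMod p) (Fin 3 → ZMod p),
    F, F, inferInstance, inferInstance, ?_⟩
  -- the order is large
  have hne : ∀ a : ZMod p, (![1, a, 0] : Fin 3 → ZMod p) ≠ 0 := by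
    intro a h
    have := congrFun h 0
    simp at this
  have hinj : Function.Injective
      (fun a : ZMod p => Projectivization.mk (ZMod p) (![1, a, 0] : Fin 3 → ZMod p) (hne a)) := by
    intro a b hab
    obtain ⟨t, ht⟩ := (Projectivization.mk_eq_mk_iff' _ _ _ _ _).mp hab
    have h0 := congrFun ht 0
    have h1 := congrFun ht 1
    simp at h0 h1
    rw [h0] at h1
    simpa using h1.symm
  have hcard := Fintype.card_le_of_injective _ hinj
  rw [ZMod.card, ProjectivePlane.card_points _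
    (Projectivization (ZMod p) (Fin 3 → ZMod p))] at hcard
  have hb := part1 (Projectivization (ZMod p) (Fin 3 → ZMod p))
    (Projectivization (ZMod p) (Fin 3 → ZMod p))
  generalize ProjectivePlane.order (Projectivization (ZMod p) (Fin 3 → ZMod p))
    (Projectivization (ZMod p) (Fin 3 → ZMod p)) = q at *
  generalize dualStrength (Projectivization (ZMod p) (Fin 3 → ZMod p))
    (Projectivization (ZMod p) (Fin 3 → ZMod p)) = s at *
  have hq : N < q := by
    by_contra hcon
    push Not at hcon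
    nlinarith
  by_contra hcon
  push Not at hcon
  have hqN : (N : ℝ) < q := by exact_mod_cast hq
  have hq0 : (0 : ℝ) < q := lt_of_le_of_lt (by positivity) hqN
  have hb' : ((q : ℝ) + 1) * ((q : ℝ) ^ 2 + q + 2) ≤ 3 * ((s - 1 : ℕ) : ℝ) ^ 2 := by
    exact_mod_cast hb
  have hs1 : ((s - 1 : ℕ) : ℝ) ≤ s := by exact_mod_cast Nat.sub_le s 1
  have hs2 : ((s - 1 : ℕ) : ℝ) ^ 2 ≤ (c * q) ^ 2 :=
    pow_le_pow_left₀ (by positivity) (hs1.trans hcon) 2
  have h3 : (q : ℝ) ^ 2 * q ≤ q ^ 2 * (3 * c ^ 2) := by nlinarith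
  have h4 : (q : ℝ) ≤ 3 * c ^ 2 := le_of_mul_le_mul_left h3 (by positivity)
  linarith

end Pool.Agent.Results.MP_aa9284_co.NotLinear
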